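import Mathlib

/-!
MP_e1f0eb_co.  Ordinary tropical lines: sets of `n = 3^k` points in the tropical plane with at most
`(n-1)(n-3)/8` ordinary tropical lines.
-/

namespace Pool.Agent.Results.MP_e1f0eb_co.EighthOfSquares

/-- The tropical line (max convention) with center `c`: the union of the three closed rays from `c`
in the directions `(-1,0)`, `(0,-1)`, `(1,1)`. -/
def tropLine (c : ℝ × ℝ) : Set (ℝ × ℝ) :=
  {p | (p.2 = c.2 ∧ p.1 ≤ c.1) ∨ (p.1 = c.1 ∧ p.2 ≤ c.2) ∨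
    (p.1 - c.1 = p.2 - c.2 ∧ c.1 ≤ p.1)}

/-- The set of ordinary tropical lines determined by `P`: tropical lines meeting `P` in exactly two
points. -/
def ordinaryLines (P : Finset (ℝ × ℝ)) : Set (Set (ℝ × ℝ)) :=
  {l | (∃ c, l = tropLine c) ∧ (l ∩ (P : Set (ℝ × ℝ))).ncard = 2}

/-- integer patterns -/
structure Pat (h : ℤ) (P : Finset (ℤ × ℤ)) : Prop where
  xi : ∀ p ∈ P, ∀ q ∈ P, p.1 = q.1 → p = q
  yi : ∀ p ∈ P, ∀ q ∈ P, p.2 = q.2 → p = q
  zi : ∀ p ∈ P, ∀ q ∈ P, p.1 - p.2 = q.1 - q.2 → p = q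
  xb : ∀ p ∈ P, -h ≤ p.1 ∧ p.1 ≤ h
  yb : ∀ p ∈ P, -h ≤ p.2 ∧ p.2 ≤ h
  zb : ∀ p ∈ P, -h ≤ p.1 - p.2 ∧ p.1 - p.2 ≤ h
  xs : ∀ v : ℤ, -h ≤ v → v ≤ h → ∃ p ∈ P, p.1 = v
  ys : ∀ v : ℤ, -h ≤ v → v ≤ h → ∃ p ∈ P, p.2 = v
  zs : ∀ v : ℤ, -h ≤ v → v ≤ h → ∃ p ∈ P, p.1 - p.2 = v

/-- the three translations -/
def t1 (h : ℤ) (p : ℤ × ℤ) : ℤ × ℤ := (p.1 - (2 * h + 1), p.2)
def t2 (h : ℤ) (p : ℤ × ℤ) : ℤ × ℤ := (p.1, p.2 - (2 * h + 1))
def t3 (h : ℤ) (p : ℤ × ℤ) : ℤ × ℤ := (p.1 + (2 * h + 1), p.2 + (2 * h + 1))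

def up (h : ℤ) (P : Finset (ℤ × ℤ)) : Finset (ℤ × ℤ) :=
  P.image (t1 h) ∪ P.image (t2 h) ∪ P.image (t3 h)

lemma mem_up {h : ℤ} {P : Finset (ℤ × ℤ)} {s : ℤ × ℤ} :
    s ∈ up h P ↔ ∃ p ∈ P, s = t1 h p ∨ s = t2 h p ∨ s = t3 h p := by
  unfold up
  simp only [Finset.mem_union, Finset.mem_image]
  constructor
  · rintro ((⟨p, hp, rfl⟩ | ⟨p, hp, rfl⟩) | ⟨p, hp, rfl⟩)
    · exact ⟨p, hp, Or.inl rfl⟩
    · exact ⟨p, hp, Or.inr (Or.inl rfl)⟩
    · exact ⟨p, hp, Or.inr (Or.inr rfl)⟩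
  · rintro ⟨p, hp, (h1 | h1 | h1)⟩
    · exact Or.inl (Or.inl ⟨p, hp, h1.symm⟩)
    · exact Or.inl (Or.inr ⟨p, hp, h1.symm⟩)
    · exact Or.inr ⟨p, hp, h1.symm⟩

lemma up_pat {h : ℤ} {P : Finset (ℤ × ℤ)} (H : Pat h P) :
    Pat (3 * h + 1) (up h P) := by
  have key : ∀ s ∈ up h P, ∃ p ∈ P, (s = t1 h p ∨ s = t2 h p ∨ s = t3 h p) ∧
      -h ≤ p.1 ∧ p.1 ≤ h ∧ -h ≤ p.2 ∧ p.2 ≤ h ∧ -h ≤ p.1 - p.2 ∧ p.1 - p.2 ≤ h := by
    intro s hs
    obtain ⟨p, hp, h1⟩ := mem_up.1 hs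
    exact ⟨p, hp, h1, (H.xb p hp).1, (H.xb p hp).2, (H.yb p hp).1, (H.yb p hp).2,
      (H.zb p hp).1, (H.zb p hp).2⟩
  refine ⟨?_, ?_, ?_, ?_, ?_, ?_, ?_, ?_, ?_⟩
  · intro s hs t ht e
    obtain ⟨p, hp, h1, b1, b2, b3, b4, b5, b6⟩ := key s hs
    obtain ⟨q, hq, h2, c1, c2, c3, c4, c5, c6⟩ := key t ht
    rcases h1 with rfl | rfl | rfl <;> rcases h2 with rfl | rfl | rfl <;>
      simp only [t1, t2, t3] at e ⊢ <;>
      first
        | (exfalso; omega)
        | (rw [H.xi p hp q hq (by omega)])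
  · intro s hs t ht e
    obtain ⟨p, hp, h1, b1, b2, b3, b4, b5, b6⟩ := key s hs
    obtain ⟨q, hq, h2, c1, c2, c3, c4, c5, c6⟩ := key t ht
    rcases h1 with rfl | rfl | rfl <;> rcases h2 with rfl | rfl | rfl <;>
      simp only [t1, t2, t3] at e ⊢ <;>
      first
        | (exfalso; omega)
        | (rw [H.yi p hp q hq (by omega)])
  · intro s hs t ht e
    obtain ⟨p, hp, h1, b1, b2, b3, b4, b5, b6⟩ := key s hs
    obtain ⟨q, hq, h2, c1, c2, c3, c4, c5, c6⟩ := key t ht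
    rcases h1 with rfl | rfl | rfl <;> rcases h2 with rfl | rfl | rfl <;>
      simp only [t1, t2, t3] at e ⊢ <;>
      first
        | (exfalso; omega)
        | (rw [H.zi p hp q hq (by omega)])
  · intro s hs
    obtain ⟨p, hp, h1, b1, b2, b3, b4, b5, b6⟩ := key s hs
    rcases h1 with rfl | rfl | rfl <;> simp only [t1, t2, t3] <;> constructor <;> omega
  · intro s hs
    obtain ⟨p, hp, h1, b1, b2, b3, b4, b5, b6⟩ := key s hs
    rcases h1 with rfl | rfl | rfl <;> simp only [t1, t2, t3] <;> constructor <;> omega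
  · intro s hs
    obtain ⟨p, hp, h1, b1, b2, b3, b4, b5, b6⟩ := key s hs
    rcases h1 with rfl | rfl | rfl <;> simp only [t1, t2, t3] <;> constructor <;> omega
  · intro v h1 h2
    rcases lt_or_ge v (-h) with h3 | h3
    · obtain ⟨p, hp, e⟩ := H.xs (v + (2 * h + 1)) (by omega) (by omega)
      exact ⟨t1 h p, mem_up.2 ⟨p, hp, Or.inl rfl⟩, by simp only [t1]; omega⟩
    · rcases le_or_gt v h with h4 | h4
      · obtain ⟨p, hp, e⟩ := H.xs v (by omega) (by omega)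
        exact ⟨t2 h p, mem_up.2 ⟨p, hp, Or.inr (Or.inl rfl)⟩, by simp only [t2]; omega⟩
      · obtain ⟨p, hp, e⟩ := H.xs (v - (2 * h + 1)) (by omega) (by omega)
        exact ⟨t3 h p, mem_up.2 ⟨p, hp, Or.inr (Or.inr rfl)⟩, by simp only [t3]; omega⟩
  · intro v h1 h2
    rcases lt_or_ge v (-h) with h3 | h3
    · obtain ⟨p, hp, e⟩ := H.ys (v + (2 * h + 1)) (by omega) (by omega)
      exact ⟨t2 h p, mem_up.2 ⟨p, hp, Or.inr (Or.inl rfl)⟩, by simp only [t2]; omega⟩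
    · rcases le_or_gt v h with h4 | h4
      · obtain ⟨p, hp, e⟩ := H.ys v (by omega) (by omega)
        exact ⟨t1 h p, mem_up.2 ⟨p, hp, Or.inl rfl⟩, by simp only [t1]; omega⟩
      · obtain ⟨p, hp, e⟩ := H.ys (v - (2 * h + 1)) (by omega) (by omega)
        exact ⟨t3 h p, mem_up.2 ⟨p, hp, Or.inr (Or.inr rfl)⟩, by simp only [t3]; omega⟩
  · intro v h1 h2
    rcases lt_or_ge v (-h) with h3 | h3
    · obtain ⟨p, hp, e⟩ := H.zs (v + (2 * h + 1)) (by omega) (by omega)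
      exact ⟨t1 h p, mem_up.2 ⟨p, hp, Or.inl rfl⟩, by simp only [t1]; omega⟩
    · rcases le_or_gt v h with h4 | h4
      · obtain ⟨p, hp, e⟩ := H.zs v (by omega) (by omega)
        exact ⟨t3 h p, mem_up.2 ⟨p, hp, Or.inr (Or.inr rfl)⟩, by simp only [t3]; omega⟩
      · obtain ⟨p, hp, e⟩ := H.zs (v - (2 * h + 1)) (by omega) (by omega)
        exact ⟨t2 h p, mem_up.2 ⟨p, hp, Or.inr (Or.inl rfl)⟩, by simp only [t2]; omega⟩

/-- pairs (left, down) without a third point -/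
noncomputable def BA (P : Finset (ℤ × ℤ)) : Finset ((ℤ × ℤ) × (ℤ × ℤ)) := by
  classical
  exact (P ×ˢ P).filter (fun st => st.1.1 < st.2.1 ∧ st.2.2 < st.1.2 ∧
    ∀ r ∈ P, r.1 - r.2 = st.2.1 - st.1.2 → r.1 ≤ st.2.1)

/-- pairs (left, up) without a third point -/
noncomputable def BB (P : Finset (ℤ × ℤ)) : Finset ((ℤ × ℤ) × (ℤ × ℤ)) := by
  classical
  exact (P ×ˢ P).filter (fun st => st.1.2 < st.2.2 ∧ st.1.1 - st.1.2 < st.2.1 - st.2.2 ∧
    ∀ r ∈ P, r.1 = st.1.2 + (st.2.1 - st.2.2) → st.1.2 ≤ r.2)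

/-- pairs (down, up) without a third point -/
noncomputable def BC (P : Finset (ℤ × ℤ)) : Finset ((ℤ × ℤ) × (ℤ × ℤ)) := by
  classical
  exact (P ×ˢ P).filter (fun st => st.1.1 < st.2.1 ∧ st.2.1 - st.2.2 < st.1.1 - st.1.2 ∧
    ∀ r ∈ P, r.2 = st.1.1 - (st.2.1 - st.2.2) → st.1.1 ≤ r.1)

lemma mem_BA {P : Finset (ℤ × ℤ)} {s t : ℤ × ℤ} : (s, t) ∈ BA P ↔ s ∈ P ∧ t ∈ P ∧
    s.1 < t.1 ∧ t.2 < s.2 ∧ ∀ r ∈ P, r.1 - r.2 = t.1 - s.2 → r.1 ≤ t.1 := by
  simp [BA, and_assoc]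

lemma mem_BB {P : Finset (ℤ × ℤ)} {s t : ℤ × ℤ} : (s, t) ∈ BB P ↔ s ∈ P ∧ t ∈ P ∧
    s.2 < t.2 ∧ s.1 - s.2 < t.1 - t.2 ∧ ∀ r ∈ P, r.1 = s.2 + (t.1 - t.2) → s.2 ≤ r.2 := by
  simp [BB, and_assoc]

lemma mem_BC {P : Finset (ℤ × ℤ)} {s t : ℤ × ℤ} : (s, t) ∈ BC P ↔ s ∈ P ∧ t ∈ P ∧
    s.1 < t.1 ∧ t.1 - t.2 < s.1 - s.2 ∧ ∀ r ∈ P, r.2 = s.1 - (t.1 - t.2) → s.1 ≤ r.1 := by
  simp [BC, and_assoc]

/-- the pairs in `[-h,h]^2` with difference of absolute value larger than `h` -/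
noncomputable def far (h : ℤ) : Finset (ℤ × ℤ) :=
  (Finset.Icc (-h) h ×ˢ Finset.Icc (-h) h).filter (fun p => h < p.1 - p.2 ∨ p.1 - p.2 < -h)

lemma mem_far {h a b : ℤ} : (a, b) ∈ far h ↔ -h ≤ a ∧ a ≤ h ∧ -h ≤ b ∧ b ≤ h ∧
    (h < a - b ∨ a - b < -h) := by
  simp [far, and_assoc]

/-- `far` is covered by two triangles. -/
lemma far_card (h : ℕ) : (far (h : ℤ)).card ≤ h * (h + 1) := by
  -- rows: for each `a`, `|a|` values of `b`
  have h1 : (far (h : ℤ)).card ≤ ∑ a ∈ Finset.Icc (-(h : ℤ)) h, a.natAbs := by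
    have : (far (h : ℤ)) ⊆ (Finset.Icc (-(h : ℤ)) h).biUnion (fun a =>
        (if 0 ≤ a then Finset.Ico (-(h : ℤ)) (a - h) else Finset.Ioc (a + h) h).image
          (fun b => (a, b))) := by
      rintro ⟨a, b⟩ hab
      rw [mem_far] at hab
      obtain ⟨x1, x2, x3, x4, x5⟩ := hab
      rw [Finset.mem_biUnion]
      refine ⟨a, Finset.mem_Icc.2 ⟨x1, x2⟩, ?_⟩
      rw [Finset.mem_image]
      refine ⟨b, ?_, rfl⟩
      split_ifs with h0
      · rw [Finset.mem_Ico]; omega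
      · rw [Finset.mem_Ioc]; omega
    refine (Finset.card_le_card this).trans (Finset.card_biUnion_le.trans ?_)
    refine Finset.sum_le_sum (fun a ha => Finset.card_image_le.trans ?_)
    rw [Finset.mem_Icc] at ha
    split_ifs with h0
    · rw [Int.card_Ico]; omega
    · rw [Int.card_Ioc]; omega
  refine h1.trans ?_
  clear h1
  induction h with
  | zero => simp
  | succ n ih =>
    have h2 : Finset.Icc (-((n + 1 : ℕ) : ℤ)) ((n + 1 : ℕ) : ℤ) ⊆
        Finset.Icc (-(n : ℤ)) n ∪ {((n : ℤ) + 1), -((n : ℤ) + 1)} := by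
      intro a ha
      rw [Finset.mem_Icc] at ha
      simp only [Finset.mem_union, Finset.mem_Icc, Finset.mem_insert, Finset.mem_singleton]
      push_cast at ha
      omega
    calc ∑ a ∈ Finset.Icc (-((n + 1 : ℕ) : ℤ)) ((n + 1 : ℕ) : ℤ), a.natAbs
        ≤ ∑ a ∈ Finset.Icc (-(n : ℤ)) n ∪ {((n : ℤ) + 1), -((n : ℤ) + 1)}, a.natAbs :=
          Finset.sum_le_sum_of_subset h2
      _ ≤ ∑ a ∈ Finset.Icc (-(n : ℤ)) n, a.natAbs +
          ∑ a ∈ ({((n : ℤ) + 1), -((n : ℤ) + 1)} : Finset ℤ), a.natAbs := by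
          have := Finset.sum_union_inter (s₁ := Finset.Icc (-(n : ℤ)) n)
            (s₂ := ({((n : ℤ) + 1), -((n : ℤ) + 1)} : Finset ℤ)) (f := fun a : ℤ => a.natAbs)
          omega
      _ ≤ n * (n + 1) + 2 * (n + 1) := by
          refine add_le_add ih ?_
          rw [Finset.sum_pair (by omega)]
          omega
      _ = (n + 1) * (n + 1 + 1) := by ring

/-- the diagonal part of the recursion -/
def d1 (h : ℤ) (st : (ℤ × ℤ) × (ℤ × ℤ)) : (ℤ × ℤ) × (ℤ × ℤ) := (t1 h st.1, t1 h st.2)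
def d2 (h : ℤ) (st : (ℤ × ℤ) × (ℤ × ℤ)) : (ℤ × ℤ) × (ℤ × ℤ) := (t2 h st.1, t2 h st.2)
def d3 (h : ℤ) (st : (ℤ × ℤ) × (ℤ × ℤ)) : (ℤ × ℤ) × (ℤ × ℤ) := (t3 h st.1, t3 h st.2)

lemma card_of_cover {h : ℕ} {A B : Finset ((ℤ × ℤ) × (ℤ × ℤ))}
    (f : (ℤ × ℤ) × (ℤ × ℤ) → ℤ × ℤ)
    (hf : ∀ st ∈ A, (∃ u ∈ B, st = d1 h u ∨ st = d2 h u ∨ st = d3 h u) ∨ f st ∈ far h)
    (hinj : ∀ st ∈ A, ∀ st' ∈ A,
      ¬ (∃ u ∈ B, st = d1 h u ∨ st = d2 h u ∨ st = d3 h u) →
      ¬ (∃ u ∈ B, st' = d1 h u ∨ st' = d2 h u ∨ st' = d3 h u) → f st = f st' → st = st') :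
    A.card ≤ 3 * B.card + h * (h + 1) := by
  classical
  have h1 : A ⊆ (B.image (d1 h) ∪ B.image (d2 h) ∪ B.image (d3 h)) ∪
      A.filter (fun st => ¬ (∃ u ∈ B, st = d1 h u ∨ st = d2 h u ∨ st = d3 h u)) := by
    intro st hst
    by_cases hc : ∃ u ∈ B, st = d1 h u ∨ st = d2 h u ∨ st = d3 h u
    · rw [Finset.mem_union]
      left
      obtain ⟨u, hu, (e | e | e)⟩ := hc
      · exact Finset.mem_union_left _ (Finset.mem_union_left _ (Finset.mem_image.2 ⟨u, hu, e.symm⟩))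
      · exact Finset.mem_union_left _ (Finset.mem_union_right _ (Finset.mem_image.2 ⟨u, hu, e.symm⟩))
      · exact Finset.mem_union_right _ (Finset.mem_image.2 ⟨u, hu, e.symm⟩)
    · rw [Finset.mem_union]
      right
      exact Finset.mem_filter.2 ⟨hst, hc⟩
  have h2 : (A.filter (fun st => ¬ (∃ u ∈ B, st = d1 h u ∨ st = d2 h u ∨ st = d3 h u))).card ≤
      (far (h : ℤ)).card := by
    refine Finset.card_le_card_of_injOn f ?_ ?_
    · intro st hst
      have hst' := Finset.mem_filter.1 (Finset.mem_coe.1 hst)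
      exact Finset.mem_coe.2 ((hf st hst'.1).resolve_left hst'.2)
    · intro st hst st' hst' e
      have a1 := Finset.mem_filter.1 (Finset.mem_coe.1 hst)
      have a2 := Finset.mem_filter.1 (Finset.mem_coe.1 hst')
      exact hinj st a1.1 st' a2.1 a1.2 a2.2 e
  have h3 := Finset.card_le_card h1
  have h4 := Finset.card_union_le (B.image (d1 h) ∪ B.image (d2 h) ∪ B.image (d3 h))
    (A.filter (fun st => ¬ (∃ u ∈ B, st = d1 h u ∨ st = d2 h u ∨ st = d3 h u)))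
  have h5 := Finset.card_union_le (B.image (d1 h) ∪ B.image (d2 h)) (B.image (d3 h))
  have h6 := Finset.card_union_le (B.image (d1 h)) (B.image (d2 h))
  have h7 : (B.image (d1 h)).card ≤ B.card := Finset.card_image_le
  have h8 : (B.image (d2 h)).card ≤ B.card := Finset.card_image_le
  have h9 : (B.image (d3 h)).card ≤ B.card := Finset.card_image_le
  have h10 := far_card h
  omega

lemma BA_up {h : ℕ} {P : Finset (ℤ × ℤ)} (H : Pat h P) :
    (BA (up h P)).card ≤ 3 * (BA P).card + h * (h + 1) := by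
  have HU := up_pat H
  have dich : ∀ st ∈ BA (up h P), (∃ u ∈ BA P, st = d1 h u ∨ st = d2 h u ∨ st = d3 h u) ∨
      (-(h : ℤ) ≤ st.2.1 ∧ st.2.1 ≤ h ∧ -(h : ℤ) ≤ st.1.2 ∧ st.1.2 ≤ h ∧
        ((h : ℤ) < st.2.1 - st.1.2 ∨ st.2.1 - st.1.2 < -h)) := by
    rintro ⟨s, t⟩ hst
    rw [mem_BA] at hst
    obtain ⟨hs, ht, h1, h2, h3⟩ := hst
    obtain ⟨p, hp, h4⟩ := mem_up.1 hs
    obtain ⟨q, hq, h5⟩ := mem_up.1 ht
    have b1 := H.xb p hp
    have b2 := H.yb p hp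
    have b3 := H.zb p hp
    have c1 := H.xb q hq
    have c2 := H.yb q hq
    have c3 := H.zb q hq
    rcases h4 with rfl | rfl | rfl <;> rcases h5 with rfl | rfl | rfl <;>
      simp only [t1, t2, t3] at h1 h2 h3
    · left
      refine ⟨(p, q), mem_BA.2 ⟨hp, hq, by omega, by omega, fun r hr e => ?_⟩, Or.inl rfl⟩
      have := h3 (t1 h r) (mem_up.2 ⟨r, hr, Or.inl rfl⟩) (by simp only [t1]; omega)
      simp only [t1] at this
      omega
    · right
      simp only [t1, t2]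
      refine ⟨by omega, by omega, by omega, by omega, ?_⟩
      by_contra hcon
      push Not at hcon
      obtain ⟨r, hr, e⟩ := H.zs (q.1 - p.2) (by omega) (by omega)
      have := h3 (t3 h r) (mem_up.2 ⟨r, hr, Or.inr (Or.inr rfl)⟩) (by simp only [t3]; omega)
      have := H.xb r hr
      simp only [t3] at *
      omega
    · omega
    · omega
    · left
      refine ⟨(p, q), mem_BA.2 ⟨hp, hq, by omega, by omega, fun r hr e => ?_⟩, Or.inr (Or.inl rfl)⟩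
      have := h3 (t2 h r) (mem_up.2 ⟨r, hr, Or.inr (Or.inl rfl)⟩) (by simp only [t2]; omega)
      simp only [t2] at this
      omega
    · omega
    · omega
    · omega
    · left
      refine ⟨(p, q), mem_BA.2 ⟨hp, hq, by omega, by omega, fun r hr e => ?_⟩, Or.inr (Or.inr rfl)⟩
      have := h3 (t3 h r) (mem_up.2 ⟨r, hr, Or.inr (Or.inr rfl)⟩) (by simp only [t3]; omega)
      simp only [t3] at this
      omega
  refine card_of_cover (fun st => (st.2.1, st.1.2)) (fun st hst => ?_) ?_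
  · rcases dich st hst with h1 | h1
    · exact Or.inl h1
    · exact Or.inr (mem_far.2 h1)
  · rintro ⟨s, t⟩ hst ⟨s', t'⟩ hst' _ _ e
    rw [mem_BA] at hst hst'
    simp only [Prod.mk.injEq] at e
    rw [HU.yi s hst.1 s' hst'.1 e.2, HU.xi t hst.2.1 t' hst'.2.1 e.1]

lemma BB_up {h : ℕ} {P : Finset (ℤ × ℤ)} (H : Pat h P) :
    (BB (up h P)).card ≤ 3 * (BB P).card + h * (h + 1) := by
  have HU := up_pat H
  have dich : ∀ st ∈ BB (up h P), (∃ u ∈ BB P, st = d1 h u ∨ st = d2 h u ∨ st = d3 h u) ∨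
      (-(h : ℤ) ≤ st.1.2 ∧ st.1.2 ≤ h ∧ -(h : ℤ) ≤ -(st.2.1 - st.2.2) ∧
        -(st.2.1 - st.2.2) ≤ h ∧
        ((h : ℤ) < st.1.2 - -(st.2.1 - st.2.2) ∨ st.1.2 - -(st.2.1 - st.2.2) < -h)) := by
    rintro ⟨s, t⟩ hst
    rw [mem_BB] at hst
    obtain ⟨hs, ht, h1, h2, h3⟩ := hst
    obtain ⟨p, hp, h4⟩ := mem_up.1 hs
    obtain ⟨q, hq, h5⟩ := mem_up.1 ht
    have b1 := H.xb p hp
    have b2 := H.yb p hp
    have b3 := H.zb p hp
    have c1 := H.xb q hq
    have c2 := H.yb q hq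
    have c3 := H.zb q hq
    rcases h4 with rfl | rfl | rfl <;> rcases h5 with rfl | rfl | rfl <;>
      simp only [t1, t2, t3] at h1 h2 h3
    · left
      refine ⟨(p, q), mem_BB.2 ⟨hp, hq, by omega, by omega, fun r hr e => ?_⟩, Or.inl rfl⟩
      have := h3 (t1 h r) (mem_up.2 ⟨r, hr, Or.inl rfl⟩) (by simp only [t1]; omega)
      simp only [t1] at this
      omega
    · omega
    · right
      simp only [t1, t3]
      refine ⟨by omega, by omega, by omega, by omega, ?_⟩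
      by_contra hcon
      push Not at hcon
      obtain ⟨r, hr, e⟩ := H.xs (p.2 + (q.1 - q.2)) (by omega) (by omega)
      have := h3 (t2 h r) (mem_up.2 ⟨r, hr, Or.inr (Or.inl rfl)⟩) (by simp only [t2]; omega)
      have := H.yb r hr
      simp only [t2] at *
      omega
    · omega
    · left
      refine ⟨(p, q), mem_BB.2 ⟨hp, hq, by omega, by omega, fun r hr e => ?_⟩, Or.inr (Or.inl rfl)⟩
      have := h3 (t2 h r) (mem_up.2 ⟨r, hr, Or.inr (Or.inl rfl)⟩) (by simp only [t2]; omega)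
      simp only [t2] at this
      omega
    · omega
    · omega
    · omega
    · left
      refine ⟨(p, q), mem_BB.2 ⟨hp, hq, by omega, by omega, fun r hr e => ?_⟩, Or.inr (Or.inr rfl)⟩
      have := h3 (t3 h r) (mem_up.2 ⟨r, hr, Or.inr (Or.inr rfl)⟩) (by simp only [t3]; omega)
      simp only [t3] at this
      omega
  refine card_of_cover (fun st => (st.1.2, -(st.2.1 - st.2.2))) (fun st hst => ?_) ?_
  · rcases dich st hst with h1 | h1
    · exact Or.inl h1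
    · exact Or.inr (mem_far.2 h1)
  · rintro ⟨s, t⟩ hst ⟨s', t'⟩ hst' _ _ e
    rw [mem_BB] at hst hst'
    simp only [Prod.mk.injEq] at e
    rw [HU.yi s hst.1 s' hst'.1 e.1, HU.zi t hst.2.1 t' hst'.2.1 (by omega)]

lemma BC_up {h : ℕ} {P : Finset (ℤ × ℤ)} (H : Pat h P) :
    (BC (up h P)).card ≤ 3 * (BC P).card + h * (h + 1) := by
  have HU := up_pat H
  have dich : ∀ st ∈ BC (up h P), (∃ u ∈ BC P, st = d1 h u ∨ st = d2 h u ∨ st = d3 h u) ∨
      (-(h : ℤ) ≤ st.1.1 ∧ st.1.1 ≤ h ∧ -(h : ℤ) ≤ (st.2.1 - st.2.2) ∧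
        (st.2.1 - st.2.2) ≤ h ∧
        ((h : ℤ) < st.1.1 - (st.2.1 - st.2.2) ∨ st.1.1 - (st.2.1 - st.2.2) < -h)) := by
    rintro ⟨s, t⟩ hst
    rw [mem_BC] at hst
    obtain ⟨hs, ht, h1, h2, h3⟩ := hst
    obtain ⟨p, hp, h4⟩ := mem_up.1 hs
    obtain ⟨q, hq, h5⟩ := mem_up.1 ht
    have b1 := H.xb p hp
    have b2 := H.yb p hp
    have b3 := H.zb p hp
    have c1 := H.xb q hq
    have c2 := H.yb q hq
    have c3 := H.zb q hq
    rcases h4 with rfl | rfl | rfl <;> rcases h5 with rfl | rfl | rfl <;>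
      simp only [t1, t2, t3] at h1 h2 h3
    · left
      refine ⟨(p, q), mem_BC.2 ⟨hp, hq, by omega, by omega, fun r hr e => ?_⟩, Or.inl rfl⟩
      have := h3 (t1 h r) (mem_up.2 ⟨r, hr, Or.inl rfl⟩) (by simp only [t1]; omega)
      simp only [t1] at this
      omega
    · omega
    · omega
    · omega
    · left
      refine ⟨(p, q), mem_BC.2 ⟨hp, hq, by omega, by omega, fun r hr e => ?_⟩, Or.inr (Or.inl rfl)⟩
      have := h3 (t2 h r) (mem_up.2 ⟨r, hr, Or.inr (Or.inl rfl)⟩) (by simp only [t2]; omega)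
      simp only [t2] at this
      omega
    · right
      simp only [t2, t3]
      refine ⟨by omega, by omega, by omega, by omega, ?_⟩
      by_contra hcon
      push Not at hcon
      obtain ⟨r, hr, e⟩ := H.ys (p.1 - (q.1 - q.2)) (by omega) (by omega)
      have := h3 (t1 h r) (mem_up.2 ⟨r, hr, Or.inl rfl⟩) (by simp only [t1]; omega)
      have := H.xb r hr
      simp only [t1] at *
      omega
    · omega
    · omega
    · left
      refine ⟨(p, q), mem_BC.2 ⟨hp, hq, by omega, by omega, fun r hr e => ?_⟩, Or.inr (Or.inr rfl)⟩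
      have := h3 (t3 h r) (mem_up.2 ⟨r, hr, Or.inr (Or.inr rfl)⟩) (by simp only [t3]; omega)
      simp only [t3] at this
      omega
  refine card_of_cover (fun st => (st.1.1, (st.2.1 - st.2.2))) (fun st hst => ?_) ?_
  · rcases dich st hst with h1 | h1
    · exact Or.inl h1
    · exact Or.inr (mem_far.2 h1)
  · rintro ⟨s, t⟩ hst ⟨s', t'⟩ hst' _ _ e
    rw [mem_BC] at hst hst'
    simp only [Prod.mk.injEq] at e
    rw [HU.xi s hst.1 s' hst'.1 e.1, HU.zi t hst.2.1 t' hst'.2.1 (by omega)]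

lemma up_card {h : ℕ} {P : Finset (ℤ × ℤ)} (H : Pat h P) : (up h P).card = 3 * P.card := by
  have i1 : Function.Injective (t1 h) := by
    rintro ⟨a, b⟩ ⟨c, d⟩ e; simp only [t1, Prod.mk.injEq] at e ⊢; omega
  have i2 : Function.Injective (t2 h) := by
    rintro ⟨a, b⟩ ⟨c, d⟩ e; simp only [t2, Prod.mk.injEq] at e ⊢; omega
  have i3 : Function.Injective (t3 h) := by
    rintro ⟨a, b⟩ ⟨c, d⟩ e; simp only [t3, Prod.mk.injEq] at e ⊢; omega
  unfold up
  rw [Finset.card_union_of_disjoint, Finset.card_union_of_disjoint,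
    Finset.card_image_of_injective _ i1, Finset.card_image_of_injective _ i2,
    Finset.card_image_of_injective _ i3]
  · omega
  · rw [Finset.disjoint_left]
    intro s hs hs'
    obtain ⟨p, hp, rfl⟩ := Finset.mem_image.1 hs
    obtain ⟨q, hq, e⟩ := Finset.mem_image.1 hs'
    have b1 := H.xb p hp
    have b2 := H.xb q hq
    simp only [t1, t2, Prod.mk.injEq] at e
    omega
  · rw [Finset.disjoint_left]
    intro s hs hs'
    obtain ⟨q, hq, e⟩ := Finset.mem_image.1 hs'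
    have b2 := H.xb q hq
    rcases Finset.mem_union.1 hs with hs | hs
    · obtain ⟨p, hp, rfl⟩ := Finset.mem_image.1 hs
      have b1 := H.xb p hp
      simp only [t1, t3, Prod.mk.injEq] at e
      omega
    · obtain ⟨p, hp, rfl⟩ := Finset.mem_image.1 hs
      have b1 := H.xb p hp
      simp only [t2, t3, Prod.mk.injEq] at e
      omega

/-- total number of bad pairs -/
noncomputable def bad (P : Finset (ℤ × ℤ)) : ℕ := (BA P).card + (BB P).card + (BC P).card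

lemma bad_up {h : ℕ} {P : Finset (ℤ × ℤ)} (H : Pat h P) :
    bad (up h P) ≤ 3 * bad P + 3 * (h * (h + 1)) := by
  have := BA_up H
  have := BB_up H
  have := BC_up H
  unfold bad
  omega

/-- the embedding of integer points in the plane -/
def emb (p : ℤ × ℤ) : ℝ × ℝ := ((p.1 : ℝ), (p.2 : ℝ))

lemma emb_inj : Function.Injective emb := by
  rintro ⟨a, b⟩ ⟨c, d⟩ e
  simp only [emb, Prod.mk.injEq, Int.cast_inj] at e
  simp only [Prod.mk.injEq]
  exact e

noncomputable def fA (st : (ℤ × ℤ) × (ℤ × ℤ)) : Set (ℝ × ℝ) :=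
  tropLine ((st.2.1 : ℝ), (st.1.2 : ℝ))
noncomputable def fB (st : (ℤ × ℤ) × (ℤ × ℤ)) : Set (ℝ × ℝ) :=
  tropLine ((st.1.2 : ℝ) + ((st.2.1 : ℝ) - (st.2.2 : ℝ)), (st.1.2 : ℝ))
noncomputable def fC (st : (ℤ × ℤ) × (ℤ × ℤ)) : Set (ℝ × ℝ) :=
  tropLine ((st.1.1 : ℝ), (st.1.1 : ℝ) - ((st.2.1 : ℝ) - (st.2.2 : ℝ)))

/-- generic position for integer points: no two on a common horizontal, vertical or slope-one
line -/
structure Gen (P : Finset (ℤ × ℤ)) : Prop where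
  xi : ∀ p ∈ P, ∀ q ∈ P, p.1 = q.1 → p = q
  yi : ∀ p ∈ P, ∀ q ∈ P, p.2 = q.2 → p = q
  zi : ∀ p ∈ P, ∀ q ∈ P, p.1 - p.2 = q.1 - q.2 → p = q

lemma caseA {P : Finset (ℤ × ℤ)} (H : Gen P) {c : ℝ × ℝ} {s t : ℤ × ℤ} (hs : s ∈ P) (ht : t ∈ P)
    (hst : s ≠ t) (hall : ∀ r ∈ P, emb r ∈ tropLine c → r = s ∨ r = t)
    (h1 : (s.2 : ℝ) = c.2) (h2 : (s.1 : ℝ) ≤ c.1) (h3 : (t.1 : ℝ) = c.1)
    (h4 : (t.2 : ℝ) ≤ c.2) : (s, t) ∈ BA P ∧ tropLine c = fA (s, t) := by
  have e1 : s.1 ≤ t.1 := by rw [← h3] at h2; exact_mod_cast h2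
  have e2 : t.2 ≤ s.2 := by rw [← h1] at h4; exact_mod_cast h4
  have e3 : s.1 ≠ t.1 := fun e => hst (H.xi s hs t ht e)
  have e4 : s.2 ≠ t.2 := fun e => hst (H.yi s hs t ht e)
  refine ⟨mem_BA.2 ⟨hs, ht, by omega, by omega, fun r hr e => ?_⟩, ?_⟩
  · by_contra hcon
    push Not at hcon
    have e5 : (r.1 : ℝ) - r.2 = t.1 - s.2 := by exact_mod_cast e
    have e6 : (t.1 : ℝ) < r.1 := by exact_mod_cast hcon
    have : emb r ∈ tropLine c := by
      right; right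
      simp only [emb]
      constructor <;> linarith
    rcases hall r hr this with rfl | rfl <;> omega
  · have : c = ((t.1 : ℝ), (s.2 : ℝ)) := by
      ext
      · exact h3.symm
      · exact h1.symm
    simp only [fA]
    rw [this]

lemma caseB {P : Finset (ℤ × ℤ)} (H : Gen P) {c : ℝ × ℝ} {s t : ℤ × ℤ} (hs : s ∈ P) (ht : t ∈ P)
    (hst : s ≠ t) (hall : ∀ r ∈ P, emb r ∈ tropLine c → r = s ∨ r = t)
    (h1 : (s.2 : ℝ) = c.2) (h2 : (s.1 : ℝ) ≤ c.1) (h3 : (t.1 : ℝ) - c.1 = t.2 - c.2)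
    (h4 : c.1 ≤ t.1) : (s, t) ∈ BB P ∧ tropLine c = fB (s, t) := by
  have e1 : s.2 ≤ t.2 := by
    have : (s.2 : ℝ) ≤ t.2 := by linarith
    exact_mod_cast this
  have e2 : s.1 - s.2 ≤ t.1 - t.2 := by
    have : (s.1 : ℝ) - s.2 ≤ t.1 - t.2 := by linarith
    exact_mod_cast this
  have e3 : s.2 ≠ t.2 := fun e => hst (H.yi s hs t ht e)
  have e4 : s.1 - s.2 ≠ t.1 - t.2 := fun e => hst (H.zi s hs t ht e)
  refine ⟨mem_BB.2 ⟨hs, ht, by omega, by omega, fun r hr e => ?_⟩, ?_⟩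
  · by_contra hcon
    push Not at hcon
    have e5 : (r.1 : ℝ) = s.2 + (t.1 - t.2) := by exact_mod_cast e
    have e6 : (r.2 : ℝ) < s.2 := by exact_mod_cast hcon
    have : emb r ∈ tropLine c := by
      right; left
      simp only [emb]
      constructor <;> linarith
    rcases hall r hr this with rfl | rfl <;> omega
  · have : c = ((s.2 : ℝ) + ((t.1 : ℝ) - (t.2 : ℝ)), (s.2 : ℝ)) := by
      ext
      · simp only; linarith
      · simp only; linarith
    simp only [fB]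
    rw [this]

lemma caseC {P : Finset (ℤ × ℤ)} (H : Gen P) {c : ℝ × ℝ} {s t : ℤ × ℤ} (hs : s ∈ P) (ht : t ∈ P)
    (hst : s ≠ t) (hall : ∀ r ∈ P, emb r ∈ tropLine c → r = s ∨ r = t)
    (h1 : (s.1 : ℝ) = c.1) (h2 : (s.2 : ℝ) ≤ c.2) (h3 : (t.1 : ℝ) - c.1 = t.2 - c.2)
    (h4 : c.1 ≤ t.1) : (s, t) ∈ BC P ∧ tropLine c = fC (s, t) := by
  have e1 : s.1 ≤ t.1 := by
    have : (s.1 : ℝ) ≤ t.1 := by linarith
    exact_mod_cast this
  have e2 : t.1 - t.2 ≤ s.1 - s.2 := by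
    have : (t.1 : ℝ) - t.2 ≤ s.1 - s.2 := by linarith
    exact_mod_cast this
  have e3 : s.1 ≠ t.1 := fun e => hst (H.xi s hs t ht e)
  have e4 : s.1 - s.2 ≠ t.1 - t.2 := fun e => hst (H.zi s hs t ht e)
  refine ⟨mem_BC.2 ⟨hs, ht, by omega, by omega, fun r hr e => ?_⟩, ?_⟩
  · by_contra hcon
    push Not at hcon
    have e5 : (r.2 : ℝ) = s.1 - (t.1 - t.2) := by exact_mod_cast e
    have e6 : (r.1 : ℝ) < s.1 := by exact_mod_cast hcon
    have : emb r ∈ tropLine c := by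
      left
      simp only [emb]
      constructor <;> linarith
    rcases hall r hr this with rfl | rfl <;> omega
  · have : c = ((s.1 : ℝ), (s.1 : ℝ) - ((t.1 : ℝ) - (t.2 : ℝ))) := by
      ext
      · simp only; linarith
      · simp only; linarith
    simp only [fC]
    rw [this]

lemma cover {P : Finset (ℤ × ℤ)} (H : Gen P) :
    ordinaryLines (P.image emb) ⊆
      (fA '' (BA P : Set ((ℤ × ℤ) × (ℤ × ℤ)))) ∪ (fB '' (BB P : Set ((ℤ × ℤ) × (ℤ × ℤ)))) ∪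
        (fC '' (BC P : Set ((ℤ × ℤ) × (ℤ × ℤ)))) := by
  rintro l ⟨⟨c, rfl⟩, hn⟩
  obtain ⟨x, y, hxy, hset⟩ := Set.ncard_eq_two.1 hn
  have hx : x ∈ tropLine c ∩ ((P.image emb : Finset (ℝ × ℝ)) : Set (ℝ × ℝ)) := by
    rw [hset]; simp
  have hy : y ∈ tropLine c ∩ ((P.image emb : Finset (ℝ × ℝ)) : Set (ℝ × ℝ)) := by
    rw [hset]; simp
  obtain ⟨s, hs, rfl⟩ := Finset.mem_image.1 (Finset.mem_coe.1 hx.2)
  obtain ⟨t, ht, rfl⟩ := Finset.mem_image.1 (Finset.mem_coe.1 hy.2)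
  have hst : s ≠ t := fun e => hxy (by rw [e])
  have hall : ∀ r ∈ P, emb r ∈ tropLine c → r = s ∨ r = t := by
    intro r hr hrc
    have : emb r ∈ tropLine c ∩ ((P.image emb : Finset (ℝ × ℝ)) : Set (ℝ × ℝ)) :=
      ⟨hrc, Finset.mem_coe.2 (Finset.mem_image_of_mem _ hr)⟩
    rw [hset] at this
    rcases this with h | h
    · exact Or.inl (emb_inj h)
    · exact Or.inr (emb_inj h)
  have hall' : ∀ r ∈ P, emb r ∈ tropLine c → r = t ∨ r = s := fun r hr h => (hall r hr h).symm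
  have hx1 := hx.1
  have hy1 := hy.1
  simp only [tropLine, emb, Set.mem_ofPred_eq] at hx1 hy1
  rcases hx1 with ⟨a1, a2⟩ | ⟨a1, a2⟩ | ⟨a1, a2⟩ <;>
    rcases hy1 with ⟨b1, b2⟩ | ⟨b1, b2⟩ | ⟨b1, b2⟩
  · exact absurd (H.yi s hs t ht (by exact_mod_cast a1.trans b1.symm)) hst
  · obtain ⟨m1, m2⟩ := caseA H hs ht hst hall a1 a2 b1 b2
    exact Or.inl (Or.inl ⟨_, Finset.mem_coe.2 m1, m2.symm⟩)
  · obtain ⟨m1, m2⟩ := caseB H hs ht hst hall a1 a2 b1 b2
    exact Or.inl (Or.inr ⟨_, Finset.mem_coe.2 m1, m2.symm⟩)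
  · obtain ⟨m1, m2⟩ := caseA H ht hs hst.symm hall' b1 b2 a1 a2
    exact Or.inl (Or.inl ⟨_, Finset.mem_coe.2 m1, m2.symm⟩)
  · exact absurd (H.xi s hs t ht (by exact_mod_cast a1.trans b1.symm)) hst
  · obtain ⟨m1, m2⟩ := caseC H hs ht hst hall a1 a2 b1 b2
    exact Or.inr ⟨_, Finset.mem_coe.2 m1, m2.symm⟩
  · obtain ⟨m1, m2⟩ := caseB H ht hs hst.symm hall' b1 b2 a1 a2
    exact Or.inl (Or.inr ⟨_, Finset.mem_coe.2 m1, m2.symm⟩)
  · obtain ⟨m1, m2⟩ := caseC H ht hs hst.symm hall' b1 b2 a1 a2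
    exact Or.inr ⟨_, Finset.mem_coe.2 m1, m2.symm⟩
  · refine absurd (H.zi s hs t ht ?_) hst
    have : (s.1 : ℝ) - s.2 = t.1 - t.2 := by linarith
    exact_mod_cast this

lemma count {P : Finset (ℤ × ℤ)} (H : Gen P) :
    (ordinaryLines (P.image emb)).Finite ∧ (ordinaryLines (P.image emb)).ncard ≤ bad P := by
  have f1 : (fA '' (BA P : Set ((ℤ × ℤ) × (ℤ × ℤ)))).Finite := (Finset.finite_toSet _).image _
  have f2 : (fB '' (BB P : Set ((ℤ × ℤ) × (ℤ × ℤ)))).Finite := (Finset.finite_toSet _).image _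
  have f3 : (fC '' (BC P : Set ((ℤ × ℤ) × (ℤ × ℤ)))).Finite := (Finset.finite_toSet _).image _
  have g1 : (fA '' (BA P : Set ((ℤ × ℤ) × (ℤ × ℤ)))).ncard ≤ (BA P).card := by
    have := Set.ncard_image_le (f := fA) (Finset.finite_toSet (BA P))
    rwa [Set.ncard_coe_finset] at this
  have g2 : (fB '' (BB P : Set ((ℤ × ℤ) × (ℤ × ℤ)))).ncard ≤ (BB P).card := by
    have := Set.ncard_image_le (f := fB) (Finset.finite_toSet (BB P))
    rwa [Set.ncard_coe_finset] at this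
  have g3 : (fC '' (BC P : Set ((ℤ × ℤ) × (ℤ × ℤ)))).ncard ≤ (BC P).card := by
    have := Set.ncard_image_le (f := fC) (Finset.finite_toSet (BC P))
    rwa [Set.ncard_coe_finset] at this
  have f4 := (f1.union f2).union f3
  refine ⟨f4.subset (cover H), ?_⟩
  have h1 := Set.ncard_le_ncard (cover H) f4
  have h2 := Set.ncard_union_le (fA '' (BA P : Set ((ℤ × ℤ) × (ℤ × ℤ))) ∪
    fB '' (BB P : Set ((ℤ × ℤ) × (ℤ × ℤ)))) (fC '' (BC P : Set ((ℤ × ℤ) × (ℤ × ℤ))))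
  have h3 := Set.ncard_union_le (fA '' (BA P : Set ((ℤ × ℤ) × (ℤ × ℤ))))
    (fB '' (BB P : Set ((ℤ × ℤ) × (ℤ × ℤ))))
  unfold bad
  omega

lemma Pat.gen {h : ℤ} {P : Finset (ℤ × ℤ)} (H : Pat h P) : Gen P := ⟨H.xi, H.yi, H.zi⟩

/-- the base pattern with `2h+1` points -/
noncomputable def Q (h : ℕ) : Finset (ℤ × ℤ) :=
  (Finset.Icc (-(h : ℤ)) h).image (fun x => (x, if x ≤ 0 then 2 * x + h else 2 * x - h - 1))

lemma mem_Q {h : ℕ} {s : ℤ × ℤ} : s ∈ Q h ↔ -(h : ℤ) ≤ s.1 ∧ s.1 ≤ h ∧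
    ((s.1 ≤ 0 ∧ s.2 = 2 * s.1 + h) ∨ (0 < s.1 ∧ s.2 = 2 * s.1 - h - 1)) := by
  unfold Q
  rw [Finset.mem_image]
  constructor
  · rintro ⟨x, hx, rfl⟩
    rw [Finset.mem_Icc] at hx
    refine ⟨hx.1, hx.2, ?_⟩
    by_cases h0 : x ≤ 0
    · left
      simp [h0]
    · right
      simp only [h0, if_false]
      exact ⟨by omega, trivial⟩
  · rintro ⟨a, b, c⟩
    refine ⟨s.1, Finset.mem_Icc.2 ⟨a, b⟩, ?_⟩
    rcases c with ⟨c, d⟩ | ⟨c, d⟩
    · ext
      · rfl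
      · simp [c, d]
    · ext
      · rfl
      · have : ¬ (s.1 ≤ 0) := by omega
        simp only [this, if_false, d]

lemma Q_card (h : ℕ) : (Q h).card = 2 * h + 1 := by
  unfold Q
  rw [Finset.card_image_of_injective, Int.card_Icc]
  · omega
  · intro a b e
    exact (Prod.mk.inj e).1

lemma Q_pat (h : ℕ) : Pat h (Q h) := by
  refine ⟨?_, ?_, ?_, ?_, ?_, ?_, ?_, ?_, ?_⟩
  · rintro ⟨a, b⟩ hp ⟨c, d⟩ hq e
    rw [mem_Q] at hp hq
    simp only [Prod.mk.injEq] at *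
    omega
  · rintro ⟨a, b⟩ hp ⟨c, d⟩ hq e
    rw [mem_Q] at hp hq
    simp only [Prod.mk.injEq] at *
    omega
  · rintro ⟨a, b⟩ hp ⟨c, d⟩ hq e
    rw [mem_Q] at hp hq
    simp only [Prod.mk.injEq] at *
    omega
  · intro p hp
    rw [mem_Q] at hp
    omega
  · intro p hp
    rw [mem_Q] at hp
    omega
  · intro p hp
    rw [mem_Q] at hp
    omega
  · intro v h1 h2
    rcases le_or_gt v 0 with h3 | h3
    · exact ⟨(v, 2 * v + h), mem_Q.2 ⟨h1, h2, Or.inl ⟨h3, rfl⟩⟩, rfl⟩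
    · exact ⟨(v, 2 * v - h - 1), mem_Q.2 ⟨h1, h2, Or.inr ⟨h3, rfl⟩⟩, rfl⟩
  · intro v h1 h2
    rcases Int.emod_two_eq_zero_or_one (v - h) with h3 | h3
    · refine ⟨((v - h) / 2, v), mem_Q.2 ⟨by simp only; omega, by simp only; omega,
        Or.inl ⟨by simp only; omega, by simp only; omega⟩⟩, rfl⟩
    · refine ⟨((v + h + 1) / 2, v), mem_Q.2 ⟨by simp only; omega, by simp only; omega,
        Or.inr ⟨by simp only; omega, by simp only; omega⟩⟩, rfl⟩
  · intro v h1 h2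
    rcases le_or_gt v 0 with h3 | h3
    · refine ⟨(-v - h, -2 * v - h), mem_Q.2 ⟨by simp only; omega, by simp only; omega,
        Or.inl ⟨by simp only; omega, by simp only; omega⟩⟩, by simp only; omega⟩
    · refine ⟨(h + 1 - v, h + 1 - 2 * v), mem_Q.2 ⟨by simp only; omega, by simp only; omega,
        Or.inr ⟨by simp only; omega, by simp only; omega⟩⟩, by simp only; omega⟩

/-- half sizes -/
def hh (h : ℕ) : ℕ → ℕ
  | 0 => h
  | j + 1 => 3 * hh h j + 1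

/-- the iterated pattern -/
noncomputable def tower (h : ℕ) : ℕ → Finset (ℤ × ℤ)
  | 0 => Q h
  | j + 1 => up (hh h j) (tower h j)

lemma hh_eq (h j : ℕ) : 2 * hh h j + 1 = 3 ^ j * (2 * h + 1) := by
  induction j with
  | zero => simp [hh]
  | succ j ih => rw [hh, pow_succ]; linarith

lemma tower_pat (h j : ℕ) : Pat (hh h j) (tower h j) := by
  induction j with
  | zero => exact Q_pat h
  | succ j ih =>
    have := up_pat ih
    rw [hh, tower]
    push_cast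
    exact this

lemma tower_card (h j : ℕ) : (tower h j).card = 3 ^ j * (2 * h + 1) := by
  induction j with
  | zero => simp [tower, Q_card]
  | succ j ih => rw [tower, up_card (tower_pat h j), ih, pow_succ]; ring

lemma tower_bad_zero (j : ℕ) :
    8 * (bad (tower 0 j) : ℤ) ≤ ((3 : ℤ) ^ j - 1) * ((3 : ℤ) ^ j - 3) := by
  induction j with
  | zero =>
    have : bad (tower 0 0) = 0 := by
      have h0 : ∀ p ∈ tower 0 0, p = (0, 0) := by
        intro p hp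
        rw [tower, mem_Q] at hp
        ext <;> simp <;> omega
      have e1 : BA (tower 0 0) = ∅ := by
        rw [Finset.eq_empty_iff_forall_notMem]
        rintro ⟨s, t⟩ hst
        rw [mem_BA] at hst
        have := h0 s hst.1
        have := h0 t hst.2.1
        subst_vars
        simp at hst
      have e2 : BB (tower 0 0) = ∅ := by
        rw [Finset.eq_empty_iff_forall_notMem]
        rintro ⟨s, t⟩ hst
        rw [mem_BB] at hst
        have := h0 s hst.1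
        have := h0 t hst.2.1
        subst_vars
        simp at hst
      have e3 : BC (tower 0 0) = ∅ := by
        rw [Finset.eq_empty_iff_forall_notMem]
        rintro ⟨s, t⟩ hst
        rw [mem_BC] at hst
        have := h0 s hst.1
        have := h0 t hst.2.1
        subst_vars
        simp at hst
      simp [bad, e1, e2, e3]
    simp [this]
  | succ j ih =>
    have h1 := bad_up (tower_pat 0 j)
    have h2 := hh_eq 0 j
    have h3 : (bad (tower 0 (j + 1)) : ℤ) ≤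
        3 * bad (tower 0 j) + 3 * ((hh 0 j : ℤ) * (hh 0 j + 1)) := by
      rw [tower]; exact_mod_cast h1
    have h4 : (3 : ℤ) ^ j = 2 * hh 0 j + 1 := by
      have : (2 * (hh 0 j : ℤ) + 1) = 3 ^ j * (2 * 0 + 1) := by exact_mod_cast h2
      linarith
    rw [pow_succ]
    rw [h4] at ih ⊢
    nlinarith

lemma bad_le_sq (P : Finset (ℤ × ℤ)) : bad P ≤ 3 * P.card ^ 2 := by
  classical
  have h1 : (BA P).card ≤ P.card ^ 2 := by
    refine (Finset.card_le_card (t := P ×ˢ P) ?_).trans (by rw [Finset.card_product, sq])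
    rintro ⟨s, t⟩ hst
    rw [mem_BA] at hst
    exact Finset.mem_product.2 ⟨hst.1, hst.2.1⟩
  have h2 : (BB P).card ≤ P.card ^ 2 := by
    refine (Finset.card_le_card (t := P ×ˢ P) ?_).trans (by rw [Finset.card_product, sq])
    rintro ⟨s, t⟩ hst
    rw [mem_BB] at hst
    exact Finset.mem_product.2 ⟨hst.1, hst.2.1⟩
  have h3 : (BC P).card ≤ P.card ^ 2 := by
    refine (Finset.card_le_card (t := P ×ˢ P) ?_).trans (by rw [Finset.card_product, sq])
    rintro ⟨s, t⟩ hst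
    rw [mem_BC] at hst
    exact Finset.mem_product.2 ⟨hst.1, hst.2.1⟩
  unfold bad
  omega

lemma tower_bad (h j : ℕ) :
    8 * bad (tower h j) ≤ (3 ^ j * (2 * h + 1)) ^ 2 + 24 * 3 ^ j * (2 * h + 1) ^ 2 := by
  induction j with
  | zero =>
    have := bad_le_sq (tower h 0)
    rw [tower_card] at this
    simp only [pow_zero, one_mul] at this ⊢
    nlinarith
  | succ j ih =>
    have h1 := bad_up (tower_pat h j)
    have h2 := hh_eq h j
    have h3 : 4 * (hh h j * (hh h j + 1)) + 1 = (3 ^ j * (2 * h + 1)) ^ 2 := by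
      rw [← h2]; ring
    have h4 : bad (tower h (j + 1)) ≤ 3 * bad (tower h j) + 3 * (hh h j * (hh h j + 1)) := by
      rw [tower]; exact h1
    have h5 : (3 ^ (j + 1) * (2 * h + 1)) ^ 2 = 9 * (3 ^ j * (2 * h + 1)) ^ 2 := by
      rw [pow_succ]; ring
    have h6 : 24 * 3 ^ (j + 1) * (2 * h + 1) ^ 2 = 3 * (24 * 3 ^ j * (2 * h + 1) ^ 2) := by
      rw [pow_succ]; ring
    rw [h5, h6]
    omega

lemma add_point {P : Finset (ℤ × ℤ)} (H : Gen P) : ∃ P' : Finset (ℤ × ℤ), Gen P' ∧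
    P'.card = P.card + 1 ∧ bad P' ≤ bad P + P.card := by
  classical
  obtain ⟨M, hM0, hM⟩ : ∃ M : ℤ, 0 < M ∧ ∀ p ∈ P, -M < p.1 ∧ p.1 < M ∧ -M < p.2 ∧ p.2 < M := by
    refine ⟨∑ p ∈ P, (|p.1| + |p.2|) + 1, ?_, ?_⟩
    · have : 0 ≤ ∑ p ∈ P, (|p.1| + |p.2|) :=
        Finset.sum_nonneg (fun p _ => add_nonneg (abs_nonneg _) (abs_nonneg _))
      omega
    · intro p hp
      have h1 : |p.1| + |p.2| ≤ ∑ p ∈ P, (|p.1| + |p.2|) :=
        Finset.single_le_sum (f := fun p : ℤ × ℤ => |p.1| + |p.2|)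
          (fun p _ => add_nonneg (abs_nonneg _) (abs_nonneg _)) hp
      have h2 := neg_abs_le p.1
      have h3 := le_abs_self p.1
      have h4 := neg_abs_le p.2
      have h5 := le_abs_self p.2
      have h6 := abs_nonneg p.1
      have h7 := abs_nonneg p.2
      refine ⟨by omega, by omega, by omega, by omega⟩
  have hx : (M, 4 * M) ∉ P := fun h => by
    have := hM _ h
    simp only at this
    omega
  refine ⟨insert (M, 4 * M) P, ⟨?_, ?_, ?_⟩, Finset.card_insert_of_notMem hx, ?_⟩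
  · intro p hp q hq e
    rcases Finset.mem_insert.1 hp with rfl | hp <;> rcases Finset.mem_insert.1 hq with rfl | hq
    · rfl
    · have := hM _ hq; simp only at e; omega
    · have := hM _ hp; simp only at e; omega
    · exact H.xi p hp q hq e
  · intro p hp q hq e
    rcases Finset.mem_insert.1 hp with rfl | hp <;> rcases Finset.mem_insert.1 hq with rfl | hq
    · rfl
    · have := hM _ hq; simp only at e; omega
    · have := hM _ hp; simp only at e; omega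
    · exact H.yi p hp q hq e
  · intro p hp q hq e
    rcases Finset.mem_insert.1 hp with rfl | hp <;> rcases Finset.mem_insert.1 hq with rfl | hq
    · rfl
    · have := hM _ hq; simp only at e; omega
    · have := hM _ hp; simp only at e; omega
    · exact H.zi p hp q hq e
  · have c1 : BA (insert (M, 4 * M) P) ⊆ BA P := by
      rintro ⟨s, t⟩ hst
      rw [mem_BA] at hst ⊢
      obtain ⟨hs, ht, a1, a2, a3⟩ := hst
      rcases Finset.mem_insert.1 hs with rfl | hs' <;> rcases Finset.mem_insert.1 ht with rfl | ht'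
      · simp at a1
      · have := hM _ ht'; simp only at a1; omega
      · have := hM _ hs'; simp only at a2; omega
      · exact ⟨hs', ht', a1, a2, fun r hr => a3 r (Finset.mem_insert_of_mem hr)⟩
    have c2 : BB (insert (M, 4 * M) P) ⊆ BB P := by
      rintro ⟨s, t⟩ hst
      rw [mem_BB] at hst ⊢
      obtain ⟨hs, ht, a1, a2, a3⟩ := hst
      rcases Finset.mem_insert.1 hs with rfl | hs' <;> rcases Finset.mem_insert.1 ht with rfl | ht'
      · simp at a1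
      · have := hM _ ht'; simp only at a1; omega
      · have := hM _ hs'; simp only at a2; omega
      · exact ⟨hs', ht', a1, a2, fun r hr => a3 r (Finset.mem_insert_of_mem hr)⟩
    have c3 : BC (insert (M, 4 * M) P) ⊆ BC P ∪ P.image (fun p => (p, (M, 4 * M))) := by
      rintro ⟨s, t⟩ hst
      rw [mem_BC] at hst
      rw [Finset.mem_union, mem_BC, Finset.mem_image]
      obtain ⟨hs, ht, a1, a2, a3⟩ := hst
      rcases Finset.mem_insert.1 hs with rfl | hs' <;> rcases Finset.mem_insert.1 ht with rfl | ht'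
      · simp at a1
      · have := hM _ ht'; simp only at a1; omega
      · exact Or.inr ⟨s, hs', rfl⟩
      · exact Or.inl ⟨hs', ht', a1, a2, fun r hr => a3 r (Finset.mem_insert_of_mem hr)⟩
    have d1 := Finset.card_le_card c1
    have d2 := Finset.card_le_card c2
    have d3 := (Finset.card_le_card c3).trans (Finset.card_union_le _ _)
    have d4 : (P.image (fun p => (p, ((M, 4 * M) : ℤ × ℤ)))).card ≤ P.card :=
      Finset.card_image_le
    unfold bad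
    omega

lemma add_points {P : Finset (ℤ × ℤ)} (H : Gen P) (r : ℕ) : ∃ P' : Finset (ℤ × ℤ), Gen P' ∧
    P'.card = P.card + r ∧ bad P' ≤ bad P + r * (P.card + r) := by
  induction r with
  | zero => exact ⟨P, H, by simp, by simp⟩
  | succ r ih =>
    obtain ⟨P₁, G₁, e₁, b₁⟩ := ih
    obtain ⟨P₂, G₂, e₂, b₂⟩ := add_point G₁
    refine ⟨P₂, G₂, by omega, b₂.trans ?_⟩
    rw [e₁]
    nlinarith

lemma all_n (n : ℕ) (hn : 1 ≤ n) : ∃ P : Finset (ℤ × ℤ), Gen P ∧ P.card = n ∧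
    (bad P : ℝ) ≤ (n : ℝ) ^ 2 / 8 + 11 * (n * Real.sqrt n) := by
  set j := Nat.log 3 (Nat.sqrt n) with hj
  have hs : Nat.sqrt n ≠ 0 := by
    have : 1 ≤ Nat.sqrt n := by rw [Nat.le_sqrt]; omega
    omega
  have ha1 : 3 ^ j ≤ Nat.sqrt n := Nat.pow_log_le_self 3 hs
  have ha2 : Nat.sqrt n < 3 ^ (j + 1) := Nat.lt_pow_succ_log_self (by norm_num) _
  set a := 3 ^ j with ha
  have ha0 : 0 < a := by positivity
  have hsq : Nat.sqrt n ≤ n := Nat.sqrt_le_self n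
  set q := n / a with hq
  have hq1 : 1 ≤ q := by
    rw [hq, Nat.one_le_div_iff ha0]; omega
  have hq2 : a * q ≤ n := Nat.mul_div_le n a
  have hq3 : n < a * (q + 1) := Nat.lt_mul_div_succ n ha0
  set h := (q - 1) / 2 with hh'
  have h1 : 2 * h + 1 ≤ q := by omega
  have h2 : q ≤ 2 * h + 2 := by omega
  set n₁ := a * (2 * h + 1) with hn₁
  have h3 : n₁ ≤ n := le_trans (Nat.mul_le_mul_left a h1) hq2
  have h4 : n - n₁ ≤ 2 * a := by
    have : a * (q + 1) ≤ a * (2 * h + 1) + 2 * a := by nlinarith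
    omega
  obtain ⟨P, G, e, b⟩ := add_points (tower_pat h j).gen (n - n₁)
  rw [tower_card] at e b
  have e' : P.card = n := by rw [e, ← hn₁]; omega
  refine ⟨P, G, e', ?_⟩
  have b1 : bad P ≤ bad (tower h j) + 2 * a * n := by
    refine b.trans ?_
    have : (n - n₁) * (3 ^ j * (2 * h + 1) + (n - n₁)) ≤ 2 * a * n :=
      Nat.mul_le_mul h4 (by rw [← ha, ← hn₁]; omega)
    omega
  have b2 := tower_bad h j
  rw [← ha, ← hn₁] at b2
  -- real estimates
  have r1 : (bad P : ℝ) ≤ bad (tower h j) + 2 * a * n := by exact_mod_cast b1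
  have r2 : 8 * (bad (tower h j) : ℝ) ≤ (n₁ : ℝ) ^ 2 + 24 * a * (2 * h + 1) ^ 2 := by
    exact_mod_cast b2
  have r3 : (n₁ : ℝ) = a * (2 * h + 1) := by rw [hn₁]; push_cast; ring
  have r4 : (n₁ : ℝ) ≤ n := by exact_mod_cast h3
  set s := Real.sqrt n with hsdef
  have s0 : 0 ≤ s := Real.sqrt_nonneg _
  have s2 : s ^ 2 = n := Real.sq_sqrt (by positivity)
  have s3 : (a : ℝ) ≤ s := by
    have t1 : (a : ℝ) ≤ (Nat.sqrt n : ℝ) := by exact_mod_cast ha1
    exact t1.trans (Real.nat_sqrt_le_real_sqrt)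
  have s4 : s ≤ 3 * a := by
    have t1 : s < (Nat.sqrt n : ℝ) + 1 := Real.real_sqrt_lt_nat_sqrt_succ
    have t2 : (Nat.sqrt n : ℝ) + 1 ≤ 3 * a := by
      have : Nat.sqrt n + 1 ≤ 3 * a := by rw [ha]; rw [pow_succ] at ha2; omega
      exact_mod_cast this
    linarith
  have a0 : (1 : ℝ) ≤ a := by exact_mod_cast ha0
  -- `24 a (2h+1)^2 ≤ 72 s^3`
  have u1 : (a : ℝ) * (2 * h + 1) ≤ s ^ 2 := by rw [← r3, s2]; exact r4
  have u0 : (0 : ℝ) ≤ 2 * h + 1 := by positivity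
  have u2 : (a : ℝ) * (2 * h + 1) ^ 2 ≤ 3 * s ^ 3 := by
    have v1 : s * (2 * h + 1 : ℝ) ≤ 3 * s ^ 2 := by
      calc s * (2 * h + 1 : ℝ) ≤ 3 * a * (2 * h + 1) := by
            exact mul_le_mul_of_nonneg_right s4 u0
        _ ≤ 3 * s ^ 2 := by nlinarith
    have sp : 0 < s := lt_of_lt_of_le (by linarith) s3
    have v2 : (2 * h + 1 : ℝ) ≤ 3 * s := by
      have : s * (2 * h + 1 : ℝ) ≤ s * (3 * s) := by nlinarith
      exact le_of_mul_le_mul_left this sp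
    calc (a : ℝ) * (2 * h + 1) ^ 2 = (a * (2 * h + 1)) * (2 * h + 1) := by ring
      _ ≤ s ^ 2 * (3 * s) := mul_le_mul u1 v2 u0 (by positivity)
      _ = 3 * s ^ 3 := by ring
  have u3 : (n₁ : ℝ) ^ 2 ≤ (n : ℝ) ^ 2 := pow_le_pow_left₀ (by positivity) r4 2
  have u4 : (a : ℝ) * n ≤ s ^ 3 := by
    rw [← s2]
    nlinarith [sq_nonneg s]
  have u5 : (n : ℝ) * s = s ^ 3 := by rw [← s2]; ring
  rw [u5]
  nlinarith

/-- **Main result.** (i) For `n = 3^k` there are `n` points with at most `(n-1)(n-3)/8` ordinary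
tropical lines. (ii) For every `n ≥ 1` there are `n` points with at most `n^2/8 + 11 n^{3/2}`
ordinary tropical lines. -/
theorem result :
    (∀ k : ℕ, ∃ P : Finset (ℝ × ℝ), P.card = 3 ^ k ∧ (ordinaryLines P).Finite ∧
      8 * ((ordinaryLines P).ncard : ℤ) ≤ ((3 : ℤ) ^ k - 1) * ((3 : ℤ) ^ k - 3)) ∧
    (∀ n : ℕ, 1 ≤ n → ∃ P : Finset (ℝ × ℝ), P.card = n ∧ (ordinaryLines P).Finite ∧
      ((ordinaryLines P).ncard : ℝ) ≤ (n : ℝ) ^ 2 / 8 + 11 * (n * Real.sqrt n)) := by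
  constructor
  · intro k
    obtain ⟨f, c⟩ := count (tower_pat 0 k).gen
    refine ⟨(tower 0 k).image emb, ?_, f, ?_⟩
    · rw [Finset.card_image_of_injective _ emb_inj, tower_card]
      simp
    · refine le_trans ?_ (tower_bad_zero k)
      have : ((ordinaryLines ((tower 0 k).image emb)).ncard : ℤ) ≤ bad (tower 0 k) := by
        exact_mod_cast c
      linarith
  · intro n hn
    obtain ⟨P, G, e, b⟩ := all_n n hn
    obtain ⟨f, c⟩ := count G
    refine ⟨P.image emb, by rw [Finset.card_image_of_injective _ emb_inj, e], f, ?_⟩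
    refine le_trans ?_ b
    exact_mod_cast c

end Pool.Agent.Results.MP_e1f0eb_co.EighthOfSquares
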